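import Pool.Agent.Helper6_Mono.GDefs

/-!
# Stabilization

`f + u_1 v_1 + ... + u_r v_r` for a polynomial `f` and new variables `u_j`, `v_j`.
-/

set_option autoImplicit false

namespace Pool.Agent.Helper8_CR

open MvPolynomial Pool.Agent.Helper6_Mono

variable {k : Type} [Field k] {σ τ : Type}

/-- the old variables and the new variables `u_1, ..., u_r`, `v_1, ..., v_r` -/
abbrev SV (σ : Type) (r : ℕ) : Type := σ ⊕ (Fin r ⊕ Fin r)

/-- the polynomial `f + u_1 v_1 + ... + u_r v_r` -/
noncomputable def stab (f : MvPolynomial σ k) (r : ℕ) : MvPolynomial (SV σ r) k :=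
  rename Sum.inl f + ∑ j : Fin r, X (Sum.inr (Sum.inl j)) * X (Sum.inr (Sum.inr j))

/-- The conclusion of the strong equivariant motivic monodromy conjecture for the polynomial `f`
over the field `k`, which is embedded in `ℂ`: there is a finite set `S` of pairs of integers
`(a, b)`, `b > 0`, such that all `a / b` are roots of the Bernstein-Sato polynomial of `f` and
`Z_f(T)` lies in the subring `ℳ[T, 1 / (1 - 𝕃 ^ a T ^ b)]`, `(a, b) ∈ S`, of `ℳ[[T]]`. -/
def Mon [Algebra k ℂ] [Finite σ] (f : MvPolynomial σ k) : Prop :=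
  ∃ S : Finset (ℤ × ℕ),
    (∀ p ∈ S, 0 < p.2 ∧
      (bfun (MvPolynomial.map (algebraMap k ℂ) f)).eval ((p.1 : ℂ) / (p.2 : ℂ)) = 0) ∧
    Zf f ∈ zetaRing f S

end Pool.Agent.Helper8_CR
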