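import Pool.Agent.Helper8_CR.Defs
import Pool.Agent.Helper6_Mono.BRoots

/-!
# Module statements for the Bernstein-Sato polynomial of the stabilization
-/

set_option autoImplicit false
set_option linter.unusedVariables false
set_option linter.unusedSectionVars false

namespace Pool.Agent.Helper8_CR

open MvPolynomial Pool.Agent.Helper6_Mono

/-- multiplication with `p` as an operator -/
noncomputable abbrev mulOp {σ : Type} (p : MvPolynomial σ ℂ) :
    Module.End ℂ (MvPolynomial σ ℂ) := LinearMap.mulLeft ℂ p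

/-- the partial derivative as an operator -/
noncomputable abbrev dOp {σ : Type} (i : σ) : Module.End ℂ (MvPolynomial σ ℂ) :=
  (pderiv i : Derivation ℂ (MvPolynomial σ ℂ) (MvPolynomial σ ℂ)).toLinearMap

/-- families of operators indexed by the natural number `s = n` -/
abbrev OpF (σ : Type) : Type := ℕ → Module.End ℂ (MvPolynomial σ ℂ)

/-- the ring `D[s]` of differential operators with coefficients polynomial in `s`, as a ring of
families of operators -/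
noncomputable def DS (σ : Type) : Subalgebra ℂ (OpF σ) :=
  Algebra.adjoin ℂ {P : OpF σ | (∃ p : MvPolynomial σ ℂ, P = fun _ => mulOp p) ∨
    (∃ i : σ, P = fun _ => dOp i) ∨
      P = fun n : ℕ => (n : ℂ) • (1 : Module.End ℂ (MvPolynomial σ ℂ))}

/-- near `p`: `b(s) F^s ∈ D[s] F^(s+1)` -/
def LBS {σ : Type} (F : MvPolynomial σ ℂ) (b : Polynomial ℂ) (p : σ → ℂ) : Prop :=
  ∃ h : MvPolynomial σ ℂ, eval p h ≠ 0 ∧ ∃ D ∈ DS σ, ∀ n : ℕ,
    C (b.eval (n : ℂ)) * h * F ^ n = D n (F ^ (n + 1))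

/-- near `p`: `b(s) F^s ∈ D[s] (F, ∂F) F^s` -/
def RBS {σ : Type} [Fintype σ] (F : MvPolynomial σ ℂ) (b : Polynomial ℂ) (p : σ → ℂ) : Prop :=
  ∃ h : MvPolynomial σ ℂ, eval p h ≠ 0 ∧ ∃ D₀ ∈ DS σ, ∃ D : σ → OpF σ, (∀ i, D i ∈ DS σ) ∧
    ∀ n : ℕ, C (b.eval (n : ℂ)) * h * F ^ n =
      D₀ n (F ^ (n + 1)) + ∑ i, D i n (pderiv i F * F ^ n)

/-- MODULE OPS: families of operators in `D[s]` are given by finite lists -/
def OpsStmt : Prop :=
  ∀ (σ : Type),
    (∀ D ∈ DS σ, ∃ P : List (Polynomial (MvPolynomial σ ℂ) × List σ), ∀ (n : ℕ)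
      (q : MvPolynomial σ ℂ), D n q =
        (P.map fun aw => aw.1.eval (n : MvPolynomial σ ℂ) * dWord aw.2 q).sum) ∧
    (∀ P : List (Polynomial (MvPolynomial σ ℂ) × List σ), ∃ D ∈ DS σ, ∀ (n : ℕ)
      (q : MvPolynomial σ ℂ), D n q =
        (P.map fun aw => aw.1.eval (n : MvPolynomial σ ℂ) * dWord aw.2 q).sum)

/-- MODULE LBF: consequences for the Bernstein-Sato polynomial -/
def LbfStmt : Prop :=
  ∀ (σ : Type) (F : MvPolynomial σ ℂ),
    (∀ p, LBS F (bfun F) p) ∧ (∀ b : Polynomial ℂ, (∀ p, LBS F b p) → bfun F ∣ b)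

/-- MODULE EVM: the value at `s = -1` -/
def EvmStmt : Prop :=
  ∀ (σ : Type) [Fintype σ] (F : MvPolynomial σ ℂ) (b : Polynomial ℂ) (p : σ → ℂ), F ≠ 0 →
    eval p F = 0 → LBS F b p → b.eval (-1) = 0 ∧
      ∀ c : Polynomial ℂ, b = (Polynomial.X + 1) * c → RBS F c p

/-- MODULE TSB: stabilization -/
def TsbStmt : Prop :=
  ∀ (σ : Type) [Fintype σ] (f : MvPolynomial σ ℂ) (c : Polynomial ℂ) (r : ℕ) (p : SV σ r → ℂ),
    RBS f c (fun i => p (Sum.inl i)) → (∀ j, p (Sum.inr j) = 0) →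
      RBS (stab f r) (c.comp (Polynomial.X + Polynomial.C (r : ℂ))) p

/-- MODULE BFIN: roots of the Bernstein-Sato polynomial of the stabilization -/
def BfinStmt : Prop :=
  ∀ (σ : Type) [Fintype σ] (f : MvPolynomial σ ℂ), (∀ c : ℂ, f ≠ C c) →
    (bfun f).eval (-1) = 0 ∧ ∀ (r : ℕ) (β : ℂ), (bfun (stab f r)).eval β = 0 →
      β = -1 ∨ (bfun f).eval (β + r) = 0

/-- MODULE BAUT: isomorphic polynomials have the same Bernstein-Sato polynomial -/
def BautStmt : Prop :=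
  ∀ (σ τ : Type) [Finite σ] [Finite τ] (Φ : MvPolynomial τ ℂ ≃ₐ[ℂ] MvPolynomial σ ℂ)
    (F : MvPolynomial τ ℂ), bfun (Φ F) = bfun F

/-- MODULE REN: iterated stabilization, stabilization of isomorphisms -/
def RenStmt : Prop :=
  (∀ (k : Type) [Field k] (σ : Type) (f : MvPolynomial σ k) (r s : ℕ),
    ∃ Φ : MvPolynomial (SV (SV σ r) s) k ≃ₐ[k] MvPolynomial (SV σ (r + s)) k,
      Φ (stab (stab f r) s) = stab f (r + s) ∧ ∀ F, (Φ F).totalDegree = F.totalDegree) ∧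
  ∀ (k : Type) [Field k] (σ τ : Type) (Φ : MvPolynomial τ k ≃ₐ[k] MvPolynomial σ k)
    (F : MvPolynomial τ k) (s : ℕ),
    ∃ Ψ : MvPolynomial (SV τ s) k ≃ₐ[k] MvPolynomial (SV σ s) k, Ψ (stab F s) = stab (Φ F) s

/-- MODULE CUB: every polynomial is stably isomorphic to a cubic polynomial -/
def CubStmt : Prop :=
  ∀ (k : Type) [Field k] (σ : Type) [Finite σ] (f : MvPolynomial σ k), ∃ r₀ : ℕ, ∀ r : ℕ, r₀ ≤ r →
    ∃ F : MvPolynomial (SV σ r) k, F.totalDegree ≤ 3 ∧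
      ∃ Φ : MvPolynomial (SV σ r) k ≃ₐ[k] MvPolynomial (SV σ r) k, Φ F = stab f r

end Pool.Agent.Helper8_CR
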