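import Pool.Agent.Helper8_CR.Fin
import Pool.Agent.Helper10_CR.Bfin
import Pool.Agent.Helper10_CR.Evm
import Pool.Agent.Helper10_CR.Ops
import Pool.Agent.Helper34_CR.Pres
import Pool.Agent.Helper34_CR.Ren
import Pool.Agent.Helper36_CR.Yred
import Pool.Agent.Helper67_CR.Cub
import Pool.Agent.Helper67_CR.Tsb
import Pool.Agent.Helper68_CR.Ser
import Pool.Agent.Helper68_CR.Cell
import Pool.Agent.Helper75_CR.Isoz
import Pool.Agent.Helper75_CR.Baut
import Pool.Agent.Helper75_CR.Sst
import Pool.Agent.Helper78_CR.Pbh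
import Pool.Agent.Helper86_CR.Alg
import Pool.Agent.Helper87_CR.Vmul
import Pool.Agent.Helper87_CR.Zmap

/-!
# All modules together
-/

set_option autoImplicit false

namespace Pool.Agent.Helper8_CR

open MvPolynomial Pool.Agent.Helper6_Mono

theorem pbhStmt : PbhStmt := H78.pbh H87.vmul

theorem presStmt : PresStmt := H34.pres pbhStmt

theorem serStmt : SerStmt := H68.ser presStmt H68.cell H36.yred H36.gmt

theorem isozStmt : IsozStmt := H75.isoz pbhStmt H87.zmap presStmt

theorem bfinStmt : BfinStmt := H10.bfin H10.lbf H10.evm H67.tsb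

theorem bautStmt : BautStmt := H75.baut H10.ops

theorem cubStmt : CubStmt := H67.cub H34.ren

section main

variable {k : Type} [Field k] [Algebra k ℂ]

/-- the stabilization theorem -/
theorem mon_of_stab' {σ : Type} [Finite σ] (f : MvPolynomial σ k) (hf : ∀ c : k, f ≠ C c) (r₀ : ℕ)
    (h : ∀ r : ℕ, r₀ < r → r ≤ r₀ + 4 → Mon (stab f r)) : Mon f :=
  mon_of_stab serStmt H86.alg H87.zmap bfinStmt f hf r₀ fun r h1 h2 => h (r + 1) (by omega) (by omega)

/-- reduction to cubic polynomials -/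
theorem cubic {σ : Type} [Finite σ] (f : MvPolynomial σ k) (hf : ∀ c : k, f ≠ C c)
    (H : ∀ (n : ℕ) (F : MvPolynomial (Fin n) k), F.totalDegree ≤ 3 → (∀ c : k, F ≠ C c) → Mon F) :
    Mon f :=
  cubic_reduction serStmt H86.alg H87.zmap bfinStmt isozStmt bautStmt cubStmt H f hf

end main

end Pool.Agent.Helper8_CR
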