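import Pool.Agent.Helper8_CR.All

/-!
# The equivariant motivic monodromy conjecture reduces to cubic polynomials

`k` is a field with an embedding in `ℂ`. For a polynomial `f` over `k` in a finite set `σ` of
variables (so `X = 𝔸^σ`), `Mon f` is the conclusion of the strong equivariant motivic monodromy
conjecture for `f`: there is a finite set `S` of pairs of integers `(a, b)`, `b > 0`, such that all
`a / b` are roots of the Bernstein-Sato polynomial of `f` and the equivariant motivic zeta function
`Z_f(T)` of Denef and Loeser lies in the subring `ℳ[T, 1 / (1 - 𝕃 ^ a T ^ b)]`, `(a, b) ∈ S`, of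
`ℳ[[T]]`, where `ℳ` is the Grothendieck ring of `X_s`-varieties with good action of the profinite
group scheme of roots of unity, localized at `𝕃`. (By a theorem of Kashiwara the roots of
Bernstein-Sato polynomials are negative, so `a < 0` is automatic.)

`stab f r` is the polynomial `f + u_1 v_1 + ... + u_r v_r` in the variables `SV σ r` (the old
variables and the new variables `u_j`, `v_j`).
-/

set_option autoImplicit false

namespace Pool.Agent.Helper8_CR.CubicReductionResult

open MvPolynomial Pool.Agent.Helper6_Mono Pool.Agent.Helper8_CR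

/-- For every non-constant polynomial `f` over `k` in `n` variables there is `r₀` such that for
every `r ≥ r₀` there are four polynomials `F_1, F_2, F_3, F_4` over `k` of degree at most three, in
`n + 2 (r + i)` variables, such that `F_i` is mapped to `f + u_1 v_1 + ... + u_(r+i) v_(r+i)` by an
automorphism of the polynomial ring, and the conclusion of the conjecture for `F_1, F_2, F_3, F_4`
implies the conclusion for `f`. In particular the conjecture for cubic polynomials implies the
conjecture for all polynomials. -/
theorem result {k : Type} [Field k] [Algebra k ℂ] {σ : Type} [Finite σ]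
    (f : MvPolynomial σ k) (hf : ∀ c : k, f ≠ C c) :
    ∃ r₀ : ℕ, ∀ r : ℕ, r₀ ≤ r →
      ∃ F : (i : Fin 4) → MvPolynomial (SV σ (r + i + 1)) k,
        (∀ i : Fin 4, (F i).totalDegree ≤ 3 ∧
          ∃ Φ : MvPolynomial (SV σ (r + i + 1)) k ≃ₐ[k] MvPolynomial (SV σ (r + i + 1)) k,
            Φ (F i) = stab f (r + i + 1)) ∧
        ((∀ i : Fin 4, Mon (F i)) → Mon f) := by
  obtain ⟨r₀, hr₀⟩ := cubStmt k σ f
  refine ⟨r₀, fun r hr => ?_⟩
  choose F hF using fun i : Fin 4 => hr₀ (r + i + 1) (by omega)
  refine ⟨F, hF, fun H => mon_of_stab' f hf r fun s h1 h2 => ?_⟩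
  obtain ⟨i, rfl⟩ : ∃ i : Fin 4, s = r + i + 1 :=
    ⟨⟨s - r - 1, by omega⟩, by simp only []; omega⟩
  obtain ⟨Φ, hΦ⟩ := (hF i).2
  rw [← hΦ]
  exact mon_iso isozStmt bautStmt rfl Φ (F i) (H i)

end Pool.Agent.Helper8_CR.CubicReductionResult
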