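import Pool.Agent.Helper8_CR.Defs
import Pool.Agent.Helper30_Simp.Defs

/-!
# Module statement: stabilization of simplicial nondegenerate polynomials
-/

set_option autoImplicit false
set_option linter.unusedVariables false

namespace Pool.Agent.Helper8_CR

open MvPolynomial Pool.Agent.Helper6_Mono Pool.Agent.Helper30_Simp

/-- MODULE SST: the stabilization of a simplicial nondegenerate polynomial is simplicial and
nondegenerate -/
def SstStmt : Prop :=
  ∀ (k : Type) [Field k] (σ : Type) [Fintype σ] (f : MvPolynomial σ k) (r : ℕ),
    Simplicial f.support → Nondeg f → Simplicial (stab f r).support ∧ Nondeg (stab f r)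

end Pool.Agent.Helper8_CR
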