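import Pool.Agent.Helper8_CR.Stmts
import Pool.Agent.Helper8_CR.BStmts
import Pool.Agent.Helper8_CR.SStmts

/-!
# The stabilization theorem and its consequences
-/

set_option autoImplicit false
set_option linter.unusedVariables false
set_option linter.unusedSectionVars false

namespace Pool.Agent.Helper8_CR

open MvPolynomial Pool.Agent.Helper6_Mono Pool.Agent.Helper6_Mono.RingPart
  Pool.Agent.Helper30_Simp

section fin

variable {k : Type} [Field k]

theorem map_stab [Algebra k ℂ] {σ : Type} (f : MvPolynomial σ k) (r : ℕ) :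
    MvPolynomial.map (algebraMap k ℂ) (stab f r) = stab (MvPolynomial.map (algebraMap k ℂ) f) r := by
  simp only [stab, map_add, map_sum, map_mul, MvPolynomial.map_X, MvPolynomial.map_rename]

theorem map_ne_C [Algebra k ℂ] {σ : Type} {f : MvPolynomial σ k} (hf : ∀ c : k, f ≠ C c) (c : ℂ) :
    MvPolynomial.map (algebraMap k ℂ) f ≠ C c := by
  classical
  intro h
  apply hf (coeff 0 f)
  ext d
  rw [coeff_C]
  split_ifs with hd
  · rw [hd]
  · have h1 := congrArg (coeff d) h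
    rw [coeff_map, coeff_C, if_neg hd] at h1
    exact (map_eq_zero _).1 h1

theorem gensA_eq {σ : Type} [Finite σ] (f : MvPolynomial σ k) (S : Finset (ℤ × ℕ)) :
    gensA (LL f) (S : Set (ℤ × ℕ)) = gens f S := rfl

theorem Lpow_nat {σ : Type} [Finite σ] (f : MvPolynomial σ k) (n : ℕ) :
    Lpow f (n : ℤ) = ((LL f : (MM f)ˣ) : MM f) ^ n := by
  rw [Lpow, zpow_natCast, Units.val_pow_eq_pow_val]

/-- the conclusion for the stabilizations implies the conclusion for the polynomial -/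
theorem mon_of_stab (hSer : SerStmt) (hAlg : AlgStmt) (hZ : ZmapStmt) (hB : BfinStmt)
    [Algebra k ℂ] {σ : Type} [Finite σ] (f : MvPolynomial σ k) (hf : ∀ c : k, f ≠ C c) (r₀ : ℕ)
    (h : ∀ r : ℕ, r₀ ≤ r → r ≤ r₀ + 3 → Mon (stab f (r + 1))) : Mon f := by
  have := Fintype.ofFinite σ
  set fC : MvPolynomial σ ℂ := MvPolynomial.map (algebraMap k ℂ) f with hfC
  obtain ⟨hm1, hroot⟩ := hB σ fC (map_ne_C hf)
  obtain ⟨R, hR⟩ := hSer k σ f
  choose ψ hψL hψ using hR
  let Q : Set ℚ := {q | (bfun fC).eval (q : ℂ) = 0}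
  obtain ⟨S, hS, hSZ⟩ := hAlg (MM f) (LL f) Q (by show (bfun fC).eval (((-1 : ℚ)) : ℂ) = 0; simpa using hm1)
    (Zf f) R
    (fun r => PowerSeries.rescale (Lpow f (r + 1)) (PowerSeries.map (ψ r) (Zf (stab f (r + 1)))))
    (fun r => by
      have h0 := hψ r
      have e2 : Lpow f ((r : ℤ) + 1) = ((LL f : (MM f)ˣ) : MM f) ^ (r + 1) := by
        rw [← Lpow_nat]; push_cast; rfl
      rw [Lpow_nat] at h0
      rw [e2] at h0 ⊢
      exact h0) r₀
    (fun r h1 h2 => by
      obtain ⟨S, hS, hSZ⟩ := h r h1 h2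
      refine ⟨S.image fun p => (p.1 + ((r : ℤ) + 1) * (p.2 : ℤ), p.2), ?_, ?_⟩
      · intro p hp
        obtain ⟨q, hq, rfl⟩ := Finset.mem_image.1 hp
        obtain ⟨hq2, hq0⟩ := hS q hq
        refine ⟨hq2, ?_⟩
        rw [map_stab] at hq0
        have hne : (q.2 : ℚ) ≠ 0 := by exact_mod_cast hq2.ne'
        have e1 : (((q.1 + ((r : ℤ) + 1) * (q.2 : ℤ) : ℤ) : ℚ)) / ((q.2 : ℕ) : ℚ)
            = (q.1 : ℚ) / q.2 + r + 1 := by
          push_cast
          field_simp
          ring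
        rcases hroot (r + 1) _ hq0 with h3 | h3
        · left
          have h4 : ((q.1 : ℚ) / q.2) = -1 := by exact_mod_cast h3
          show (((q.1 + ((r : ℤ) + 1) * (q.2 : ℤ) : ℤ) : ℚ)) / ((q.2 : ℕ) : ℚ) = r
          rw [e1, h4]; ring
        · right
          show (bfun fC).eval (((((q.1 + ((r : ℤ) + 1) * (q.2 : ℤ) : ℤ) : ℚ)) / ((q.2 : ℕ) : ℚ) : ℚ) : ℂ) = 0
          rw [e1]
          push_cast
          push_cast at h3
          rw [← h3]
          ring_nf
      · exact hZ k σ (SV σ (r + 1)) (stab f (r + 1)) f (ψ r) (hψL r) S (Zf (stab f (r + 1)))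
          ((r : ℤ) + 1) hSZ)
  refine ⟨S, fun p hp => ⟨(hS p hp).1, ?_⟩, hSZ⟩
  have h5 : (bfun fC).eval ((((p.1 : ℚ) / p.2 : ℚ)) : ℂ) = 0 := (hS p hp).2
  push_cast at h5
  exact h5

/-- the conclusion is invariant under isomorphisms of polynomial rings -/
theorem mon_iso (hI : IsozStmt) (hB : BautStmt) [Algebra k ℂ] {σ τ : Type} [Finite σ] [Finite τ]
    (hc : Nat.card σ = Nat.card τ) (Φ : MvPolynomial τ k ≃ₐ[k] MvPolynomial σ k)
    (F : MvPolynomial τ k) (h : Mon F) : Mon (Φ F) := by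
  obtain ⟨S, hS, hSZ⟩ := h
  refine ⟨S, fun p hp => ⟨(hS p hp).1, ?_⟩, hI k σ τ hc Φ F S hSZ⟩
  -- the isomorphism over `ℂ`
  let a : MvPolynomial τ ℂ →ₐ[ℂ] MvPolynomial σ ℂ :=
    aeval fun j => MvPolynomial.map (algebraMap k ℂ) (Φ (X j))
  let b : MvPolynomial σ ℂ →ₐ[ℂ] MvPolynomial τ ℂ :=
    aeval fun i => MvPolynomial.map (algebraMap k ℂ) (Φ.symm (X i))
  have ha : ∀ G : MvPolynomial τ k, a (MvPolynomial.map (algebraMap k ℂ) G)
      = MvPolynomial.map (algebraMap k ℂ) (Φ G) := by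
    intro G
    have : (a : MvPolynomial τ ℂ →+* MvPolynomial σ ℂ).comp (MvPolynomial.map (algebraMap k ℂ))
        = (MvPolynomial.map (algebraMap k ℂ)).comp
          ((Φ : MvPolynomial τ k →ₐ[k] MvPolynomial σ k) : MvPolynomial τ k →+* MvPolynomial σ k) := by
      apply MvPolynomial.ringHom_ext
      · intro c
        simp only [RingHom.comp_apply, RingHom.coe_coe, MvPolynomial.map_C]
        rw [algHom_C]
        have h1 : (Φ : MvPolynomial τ k →ₐ[k] MvPolynomial σ k) (C c) = C c := algHom_C _ c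
        rw [h1, MvPolynomial.map_C]
        rfl
      · intro i
        simp only [RingHom.comp_apply, RingHom.coe_coe, MvPolynomial.map_X]
        exact aeval_X _ i
    exact RingHom.congr_fun this G
  have hb : ∀ G : MvPolynomial σ k, b (MvPolynomial.map (algebraMap k ℂ) G)
      = MvPolynomial.map (algebraMap k ℂ) (Φ.symm G) := by
    intro G
    have : (b : MvPolynomial σ ℂ →+* MvPolynomial τ ℂ).comp (MvPolynomial.map (algebraMap k ℂ))
        = (MvPolynomial.map (algebraMap k ℂ)).comp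
          ((Φ.symm : MvPolynomial σ k →ₐ[k] MvPolynomial τ k) : MvPolynomial σ k →+* MvPolynomial τ k) := by
      apply MvPolynomial.ringHom_ext
      · intro c
        simp only [RingHom.comp_apply, RingHom.coe_coe, MvPolynomial.map_C]
        rw [algHom_C]
        have h1 : (Φ.symm : MvPolynomial σ k →ₐ[k] MvPolynomial τ k) (C c) = C c := algHom_C _ c
        rw [h1, MvPolynomial.map_C]
        rfl
      · intro i
        simp only [RingHom.comp_apply, RingHom.coe_coe, MvPolynomial.map_X]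
        exact aeval_X _ i
    exact RingHom.congr_fun this G
  have hab : a.comp b = AlgHom.id ℂ _ := by
    apply MvPolynomial.algHom_ext
    intro i
    rw [AlgHom.comp_apply]
    have h1 : b (X i) = MvPolynomial.map (algebraMap k ℂ) (Φ.symm (X i)) := aeval_X _ i
    rw [h1, ha, AlgEquiv.apply_symm_apply, MvPolynomial.map_X]
    rfl
  have hba : b.comp a = AlgHom.id ℂ _ := by
    apply MvPolynomial.algHom_ext
    intro i
    rw [AlgHom.comp_apply]
    have h1 : a (X i) = MvPolynomial.map (algebraMap k ℂ) (Φ (X i)) := aeval_X _ i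
    rw [h1, hb, AlgEquiv.symm_apply_apply, MvPolynomial.map_X]
    rfl
  have h1 := hB σ τ (AlgEquiv.ofAlgHom a b hab hba) (MvPolynomial.map (algebraMap k ℂ) F)
  have h2 : (AlgEquiv.ofAlgHom a b hab hba) (MvPolynomial.map (algebraMap k ℂ) F)
      = MvPolynomial.map (algebraMap k ℂ) (Φ F) := ha F
  rw [← h2, h1]
  exact (hS p hp).2

theorem iso_ne_C {σ τ : Type} (Φ : MvPolynomial τ k ≃ₐ[k] MvPolynomial σ k)
    {F : MvPolynomial τ k} (h : ∀ c : k, Φ F ≠ C c) (c : k) : F ≠ C c := by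
  rintro rfl
  exact h c (algHom_C (Φ : MvPolynomial τ k →ₐ[k] MvPolynomial σ k) c)

theorem stab_ne_C {σ : Type} {f : MvPolynomial σ k} (hf : ∀ c : k, f ≠ C c) (r : ℕ) (c : k) :
    stab f r ≠ C c := by
  intro h
  let e : MvPolynomial (SV σ r) k →ₐ[k] MvPolynomial σ k := aeval (Sum.elim X fun _ => 0)
  have h1 := congrArg e h
  have h2 : e (rename Sum.inl f) = f := by
    rw [aeval_rename]
    have : (Sum.elim X (fun _ => 0) : SV σ r → MvPolynomial σ k) ∘ Sum.inl = X := rfl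
    rw [this, aeval_X_left_apply]
  have h3 : ∀ j : Fin r, e (X (Sum.inr (Sum.inl j)) * X (Sum.inr (Sum.inr j))) = 0 := by
    intro j
    rw [map_mul, aeval_X]
    simp
  rw [stab, map_add, map_sum, h2, Finset.sum_eq_zero fun j _ => h3 j, add_zero, algHom_C] at h1
  exact hf c h1

/-- Theorem A: reduction to cubic polynomials -/
theorem cubic_reduction (hSer : SerStmt) (hAlg : AlgStmt) (hZ : ZmapStmt) (hB : BfinStmt)
    (hI : IsozStmt) (hBa : BautStmt) (hC : CubStmt) [Algebra k ℂ]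
    (H : ∀ (n : ℕ) (F : MvPolynomial (Fin n) k), F.totalDegree ≤ 3 → (∀ c : k, F ≠ C c) → Mon F)
    {σ : Type} [Finite σ] (f : MvPolynomial σ k) (hf : ∀ c : k, f ≠ C c) : Mon f := by
  obtain ⟨r₀, hr₀⟩ := hC k σ f
  refine mon_of_stab hSer hAlg hZ hB f hf r₀ fun r h1 h2 => ?_
  obtain ⟨F, hF, Φ, hΦ⟩ := hr₀ (r + 1) (by omega)
  rw [← hΦ]
  refine mon_iso hI hBa rfl Φ F ?_
  let e : SV σ (r + 1) ≃ Fin (Nat.card (SV σ (r + 1))) := Finite.equivFin _
  have hFc : ∀ c : k, F ≠ C c := iso_ne_C Φ (by rw [hΦ]; exact stab_ne_C hf _)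
  have h3 : Mon (renameEquiv k e F) := by
    refine H _ _ ?_ ?_
    · exact (totalDegree_rename_le _ _).trans hF
    · apply iso_ne_C (renameEquiv k e).symm
      rw [AlgEquiv.symm_apply_apply]
      exact hFc
  have h4 := mon_iso hI hBa (by simp) (renameEquiv k e).symm (renameEquiv k e F) h3
  rwa [AlgEquiv.symm_apply_apply] at h4

theorem card_SV (σ : Type) [Finite σ] (r : ℕ) : Nat.card (SV σ r) = Nat.card σ + (r + r) := by
  rw [Nat.card_sum, Nat.card_sum, Nat.card_fin]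

/-- Theorem B: if a stabilization of `f` is isomorphic to a polynomial `G` all of whose
stabilizations satisfy the conclusion then so does `f` -/
theorem stable_closure (hSer : SerStmt) (hAlg : AlgStmt) (hZ : ZmapStmt) (hB : BfinStmt)
    (hI : IsozStmt) (hBa : BautStmt) (hRen : RenStmt) [Algebra k ℂ]
    {σ τ : Type} [Finite σ] [Finite τ] (f : MvPolynomial σ k) (hf : ∀ c : k, f ≠ C c) (r : ℕ)
    (hc : Nat.card (SV σ r) = Nat.card τ)
    (G : MvPolynomial τ k) (Φ : MvPolynomial τ k ≃ₐ[k] MvPolynomial (SV σ r) k)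
    (hG : Φ G = stab f r) (H : ∀ s : ℕ, Mon (stab G s)) : Mon f := by
  refine mon_of_stab hSer hAlg hZ hB f hf r fun r' h1 h2 => ?_
  obtain ⟨s, hs⟩ : ∃ s, r' + 1 = r + s := ⟨r' + 1 - r, by omega⟩
  rw [hs]
  obtain ⟨Θ, hΘ, -⟩ := hRen.1 k σ f r s
  obtain ⟨Ψ, hΨ⟩ := hRen.2 k (SV σ r) τ Φ G s
  rw [← hΘ]
  refine mon_iso hI hBa ?_ Θ _ ?_
  · rw [card_SV, card_SV, card_SV]
    omega
  · rw [← hG, ← hΨ]
    refine mon_iso hI hBa ?_ Ψ _ (H s)
    rw [card_SV (SV σ r) s, card_SV τ s, hc]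

end fin

end Pool.Agent.Helper8_CR
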