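import Pool.Agent.Helper8_CR.Defs
import Pool.Agent.Helper6_Mono.Ring
import Pool.Agent.Helper6_Mono.Sup

/-!
# Module statements for the stabilization theorem
-/

set_option autoImplicit false
set_option linter.unusedVariables false
set_option linter.unusedSectionVars false

namespace Pool.Agent.Helper8_CR

open MvPolynomial Pool.Agent.Helper6_Mono Pool.Agent.Helper6_Mono.RingPart

/-! ## The Grothendieck ring -/

section geo

variable {k : Type} [Field k] {σ τ : Type}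

/-- base change along the polynomial map `g : 𝔸^σ → 𝔸^τ`: `X ↦ X ×_{𝔸^τ} 𝔸^σ` -/
@[reducible] noncomputable def PBK [Finite σ] (g : τ → MvPolynomial σ k) :
    Kern k QZ τ (fun _ => 0) σ (fun _ => 0) where
  K := GF.lines k σ 0
  hK := FT.lines σ 0
  A := τ
  wA _ := 0
  r j {S} _ _ b z := b j - aeval z (g j)
  r_tw j {S S'} _ _ _ _ φ c x z := by
    have h : (fun i => chr c (0 : QZ) * φ (z i)) = fun i => φ (z i) := by
      funext i; rw [chr_zero, one_mul]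
    show chr c (0 : QZ) * φ (x j) - aeval (fun i => chr c (0 : QZ) * φ (z i)) (g j) = _
    rw [h, chr_zero, one_mul, one_mul, map_sub, ← comp_aeval_apply]
  Φ i {S} _ _ b z := z i
  Φ_tw i {S S'} _ _ _ _ φ c x z := rfl

/-- fibre product over the affine space -/
@[reducible] noncomputable def fibP (X Y : Ov k σ) : Ov k σ where
  F := (X.F.prod Y.F).sub (fun S _ _ p => ∀ b, (X.pt b).fn p.1 = (Y.pt b).fn p.2)
    (fun φ c p hp b => by
      show (X.pt b).fn (X.F.tw φ c p.1) = (Y.pt b).fn (Y.F.tw φ c p.2)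
      rw [(X.pt b).fn_tw, (Y.pt b).fn_tw, hp b])
  pt b := ((X.pt b).fst Y.F).res

/-- the function coefficient of `t ^ j` in `f(γ)` on jets, as equations -/
noncomputable abbrev jf {S : Type} [CommRing S] [Algebra k S] (f : MvPolynomial σ k) (γ : σ → PowerSeries S)
    (j : ℕ) : S := PowerSeries.coeff j (aeval γ f)

theorem jf_tw {S S' : Type} [CommRing S] [Algebra k S] [CommRing S'] [Algebra k S'] (ω : QZ)
    (φ : S →ₐ[k] S') (c : Chr QZ S') (f : MvPolynomial σ k) (γ : σ → PowerSeries S) (j : ℕ) :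
    jf f (fun i => twS ω φ c (γ i)) j = chr c (j • ω) * φ (jf f γ j) := by
  have : aeval (fun i => twS ω φ c (γ i)) f = twS ω φ c (aeval γ f) := by
    rw [← comp_aeval_apply]
  rw [jf, this, coeff_twS]

theorem one_tw {S S' : Type} [CommRing S] [Algebra k S] [CommRing S'] [Algebra k S'] {ω : QZ}
    {m : ℕ} (hω : m • ω = 0) (φ : S →ₐ[k] S') (c : Chr QZ S') (j : ℕ) :
    (if j = m then (1 : S') else 0) = chr c (j • ω) * φ (if j = m then 1 else 0) := by
  split_ifs with h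
  · rw [h, hω, chr_zero, map_one, mul_one]
  · rw [map_zero, mul_zero]

/-- jets `γ` of order `m` with `f(γ) = t ^ m` modulo `t ^ (a + 1)`, over `𝔸^σ` by `γ ↦ γ(0)` -/
@[reducible] noncomputable def JY (f : MvPolynomial σ k) (m a : ℕ) (ω : QZ) (hω : m • ω = 0) :
    Ov k σ where
  F := (jetGF k (Set.univ : Set σ) m ω).sub
    (fun S _ _ γ => ∀ j, j ≤ a → jf f γ.1 j = if j = m then 1 else 0)
    (fun φ c γ h j hj => by
      show jf f (fun i => twS ω φ c (γ.1 i)) j = _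
      rw [jf_tw, h j hj, ← one_tw hω])
  pt i := ⟨fun γ => PowerSeries.coeff 0 (γ.1.1 i), fun φ c γ => by
    show PowerSeries.coeff 0 (twS ω φ c (γ.1.1 i)) = _
    rw [coeff_twS, zero_smul]⟩

/-- jets `γ` of order `a` with `f(γ) = 0` modulo `t ^ (a + 1)`, over `𝔸^σ` by `γ ↦ γ(0)`; the
weight of `t` is `ω` -/
@[reducible] noncomputable def JZ (f : MvPolynomial σ k) (a : ℕ) (ω : QZ) : Ov k σ where
  F := (jetGF k (Set.univ : Set σ) a ω).sub
    (fun S _ _ γ => ∀ j, j ≤ a → jf f γ.1 j = 0)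
    (fun φ c γ h j hj => by
      show jf f (fun i => twS ω φ c (γ.1 i)) j = _
      rw [jf_tw, h j hj, map_zero, mul_zero])
  pt i := ⟨fun γ => PowerSeries.coeff 0 (γ.1.1 i), fun φ c γ => by
    show PowerSeries.coeff 0 (twS ω φ c (γ.1.1 i)) = _
    rw [coeff_twS, zero_smul]⟩

/-- the support of `u` and `v`: coefficients of index `1, ..., m` -/
def Dm (r m : ℕ) : Set ((Fin r ⊕ Fin r) × ℕ) := {p | 1 ≤ p.2 ∧ p.2 ≤ m}

/-- `f(γ) + ∑ u_j v_j` -/
noncomputable abbrev fuv {S : Type} [CommRing S] [Algebra k S] {r : ℕ} (f : MvPolynomial σ k)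
    (γ : σ → PowerSeries S) (w : Fin r ⊕ Fin r → PowerSeries S) : PowerSeries S :=
  aeval γ f + ∑ i : Fin r, w (Sum.inl i) * w (Sum.inr i)

theorem fuv_tw {S S' : Type} [CommRing S] [Algebra k S] [CommRing S'] [Algebra k S'] (ω : QZ)
    (φ : S →ₐ[k] S') (c : Chr QZ S') {r : ℕ} (f : MvPolynomial σ k) (γ : σ → PowerSeries S)
    (w : Fin r ⊕ Fin r → PowerSeries S) :
    fuv f (fun i => twS ω φ c (γ i)) (fun i => twS ω φ c (w i)) = twS ω φ c (fuv f γ w) := by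
  have : aeval (fun i => twS ω φ c (γ i)) f = twS ω φ c (aeval γ f) := by
    rw [← comp_aeval_apply]
  rw [fuv, fuv, this, map_add, map_sum]
  simp only [map_mul]

/-- jets `(γ, u, v)` of order `m`, `u(0) = v(0) = 0`, with `f(γ) + ∑ u_j v_j = t ^ m` modulo
`t ^ (m + 1)`, over `𝔸^σ` by `(γ, u, v) ↦ γ(0)` -/
@[reducible] noncomputable def JS (f : MvPolynomial σ k) (r m : ℕ) (ω : QZ) (hω : m • ω = 0) :
    Ov k σ where
  F := ((jetGF k (Set.univ : Set σ) m ω).prod (GF.sup k (Dm r m) ω)).sub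
    (fun S _ _ p => ∀ j, j ≤ m → PowerSeries.coeff j (fuv f p.1.1 p.2.1) = if j = m then 1 else 0)
    (fun φ c p h j hj => by
      show PowerSeries.coeff j (fuv f (fun i => twS ω φ c (p.1.1 i))
        (fun i => twS ω φ c (p.2.1 i))) = _
      rw [fuv_tw, coeff_twS, h j hj, ← one_tw hω])
  pt i := ⟨fun p => PowerSeries.coeff 0 (p.1.1.1 i), fun φ c p => by
    show PowerSeries.coeff 0 (twS ω φ c (p.1.1.1 i)) = _
    rw [coeff_twS, zero_smul]⟩

end geo

/-- MODULE VMUL: the universal invariant is multiplicative for fibre products -/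
def VmulStmt : Prop :=
  ∀ (k : Type) [Field k] (σ : Type) [Finite σ] (f : MvPolynomial σ k) (X Y : Ov k σ),
    FT X.F → FT Y.F → (chi f).χ (fibP X Y) = (chi f).χ X * (chi f).χ Y

/-- MODULE PBH: base change is a ring homomorphism -/
def PbhStmt : Prop :=
  ∀ (k : Type) [Field k] (σ τ : Type) [Finite σ] [Finite τ] (F : MvPolynomial τ k)
    (f : MvPolynomial σ k) (g : τ → MvPolynomial σ k), bind₁ g F ∈ Ideal.span {f} →
    ∃ ψ : MM F →+* MM f, ψ (LL F : (MM F)ˣ) = ((LL f : (MM f)ˣ) : MM f) ∧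
      ∀ X : Ov k τ, FT X.F → ψ ((chi F).χ X) = (chi f).χ ((PBK g).app X)

/-- MODULE ISOZ: the zeta function of isomorphic polynomials -/
def IsozStmt : Prop :=
  ∀ (k : Type) [Field k] (σ τ : Type) [Finite σ] [Finite τ], Nat.card σ = Nat.card τ →
    ∀ (Φ : MvPolynomial τ k ≃ₐ[k] MvPolynomial σ k) (F : MvPolynomial τ k) (S : Finset (ℤ × ℕ)),
    Zf F ∈ zetaRing F S → Zf (Φ F) ∈ zetaRing (Φ F) S

/-- MODULE ZMAP: a ring homomorphism which preserves `𝕃` maps the rings of rational functions to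
each other, also after the substitution `T = 𝕃 ^ e T` -/
def ZmapStmt : Prop :=
  ∀ (k : Type) [Field k] (σ τ : Type) [Finite σ] [Finite τ] (F : MvPolynomial τ k)
    (f : MvPolynomial σ k) (ψ : MM F →+* MM f), ψ (LL F : (MM F)ˣ) = ((LL f : (MM f)ˣ) : MM f) →
    ∀ (S : Finset (ℤ × ℕ)) (Z : PowerSeries (MM F)) (e : ℤ), Z ∈ zetaRing F S →
      PowerSeries.rescale (Lpow f e) (PowerSeries.map ψ Z) ∈
        zetaRing f (S.image fun p => (p.1 + e * (p.2 : ℤ), p.2))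

/-- MODULE CELL: the class of the jets `(γ, u, v)` -/
def CellStmt : Prop :=
  ∀ (k : Type) [Field k] (σ : Type) [Finite σ] (f : MvPolynomial σ k) (R : Type 1) [CommRing R]
    (L : Rˣ) (χ : SInv k (fun _ : σ => (0 : QZ)) L) (r m : ℕ), 0 < m →
    ∀ (ω : QZ) (hω : m • ω = 0),
    χ.χ (JS f (r + 1) m ω hω) =
      ((L : R) ^ (r + 1) - 1) * ∑ a ∈ Finset.Icc 1 m,
        (L : R) ^ ((r + 1) * m + r * (m - a)) * χ.χ (JY f m a ω hω)
      + (L : R) ^ ((r + 1) * m) * χ.χ (JY f m m ω hω)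

/-- MODULE YRED: forgetting the higher coefficients of `γ` -/
def YredStmt : Prop :=
  ∀ (k : Type) [Field k] (σ : Type) [Finite σ] (f : MvPolynomial σ k) (R : Type 1) [CommRing R]
    (L : Rˣ) (χ : SInv k (fun _ : σ => (0 : QZ)) L) (m a : ℕ), a < m →
    ∀ (ω : QZ) (hω : m • ω = 0),
    χ.χ (JY f m a ω hω) = (L : R) ^ (Nat.card σ * (m - a)) * χ.χ (JZ f a ω)

/-- MODULE GMT: the weight of `t` does not matter after multiplication with `𝕃 - 1` -/
def GmtStmt : Prop :=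
  ∀ (k : Type) [Field k] (σ : Type) [Finite σ] (f : MvPolynomial σ k) (R : Type 1) [CommRing R]
    (L : Rˣ) (χ : SInv k (fun _ : σ => (0 : QZ)) L) (a : ℕ) (ω : QZ),
    ((L : R) - 1) * χ.χ (JZ f a ω) = ((L : R) - 1) * χ.χ (JZ f a 0)

/-- MODULE PRES: the classes of the jet spaces of `f` and of its stabilization -/
def PresStmt : Prop :=
  ∀ (k : Type) [Field k] (σ : Type) [Finite σ] (f : MvPolynomial σ k) (m : ℕ) (hm : m ≠ 0)
    (hω : m • ((((1 : ℚ) / m : ℚ)) : QZ) = 0),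
    cls (XJet f m hm) = (chi f).χ (JY f m m ((((1 : ℚ) / m : ℚ)) : QZ) hω) ∧
    ∀ r : ℕ, ∃ ψ : MM (stab f r) →+* MM f,
      ψ (LL (stab f r) : (MM (stab f r))ˣ) = ((LL f : (MM f)ˣ) : MM f) ∧
      ∀ (m : ℕ) (hm : m ≠ 0) (hω : m • ((((1 : ℚ) / m : ℚ)) : QZ) = 0),
        ψ (cls (XJet (stab f r) m hm)) = (chi f).χ (JS f r m ((((1 : ℚ) / m : ℚ)) : QZ) hω)

/-- MODULE SER: the restriction of the zeta function of the stabilization to `X_s` -/
def SerStmt : Prop :=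
  ∀ (k : Type) [Field k] (σ : Type) [Finite σ] (f : MvPolynomial σ k),
    ∃ R : PowerSeries (MM f), ∀ r : ℕ, ∃ ψ : MM (stab f (r + 1)) →+* MM f,
      ψ (LL (stab f (r + 1)) : (MM (stab f (r + 1)))ˣ) = ((LL f : (MM f)ˣ) : MM f) ∧
      (1 - PowerSeries.C (Lpow f r) * PowerSeries.X) *
          PowerSeries.rescale (Lpow f (r + 1)) (PowerSeries.map ψ (Zf (stab f (r + 1)))) =
        PowerSeries.C (Lpow f (r + 1)) * (1 - PowerSeries.C (Lpow f r) * PowerSeries.X) * Zf f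
        + PowerSeries.C ((Lpow f (r + 1) - 1) * Lpow f r) * PowerSeries.X * R

/-! ## Algebra of rational functions -/

/-- the power series generating the ring `M[T, 1 / (1 - L ^ a T ^ b)]`, `(a, b) ∈ S` -/
def gensA {M : Type 1} [CommRing M] (L : Mˣ) (S : Set (ℤ × ℕ)) : Set (PowerSeries M) :=
  {x | x = PowerSeries.X ∨ ∃ p ∈ S,
    x * (1 - PowerSeries.C (((L ^ p.1 : Mˣ) : M)) * PowerSeries.X ^ p.2) = 1}

/-- MODULE ALG: elimination of `R` and of the bad factors -/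
def AlgStmt : Prop :=
  ∀ (M : Type 1) [CommRing M] (L : Mˣ) (Q : Set ℚ), (-1 : ℚ) ∈ Q →
    ∀ (Z R : PowerSeries M) (E : ℕ → PowerSeries M),
    (∀ r : ℕ, (1 - PowerSeries.C ((L : M) ^ r) * PowerSeries.X) * E r =
      PowerSeries.C ((L : M) ^ (r + 1)) * (1 - PowerSeries.C ((L : M) ^ r) * PowerSeries.X) * Z
        + PowerSeries.C (((L : M) ^ (r + 1) - 1) * (L : M) ^ r) * PowerSeries.X * R) →
    ∀ r₀ : ℕ, (∀ r : ℕ, r₀ ≤ r → r ≤ r₀ + 3 → ∃ S : Finset (ℤ × ℕ),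
      (∀ p ∈ S, 0 < p.2 ∧ ((p.1 : ℚ) / p.2 = r ∨ (p.1 : ℚ) / p.2 ∈ Q)) ∧
      E r ∈ Algebra.adjoin M (gensA L (S : Set (ℤ × ℕ)))) →
    ∃ S : Finset (ℤ × ℕ), (∀ p ∈ S, 0 < p.2 ∧ (p.1 : ℚ) / p.2 ∈ Q) ∧
      Z ∈ Algebra.adjoin M (gensA L (S : Set (ℤ × ℕ)))

end Pool.Agent.Helper8_CR
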