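import Pool.Agent.Helper8_CR.Defs

/-!
# Successive elimination

If `z_1, ..., z_r` are defined successively by `z_j = g_j(x, z_1, ..., z_(j-1))` and
`f = h(x, z_1, ..., z_r)`, then `h(x, u) + ∑ v_j (u_j - g_j(x, u))` is isomorphic to
`f + ∑ u_j v_j`.
-/

set_option autoImplicit false
set_option linter.unusedVariables false

namespace Pool.Agent.Helper8_CR

open MvPolynomial

variable {k : Type} [Field k] {σ : Type} {r : ℕ}

/-- the inclusion of the variables `x`, `u` in the variables `x`, `u`, `v` -/
abbrev xu (σ : Type) (r : ℕ) : σ ⊕ Fin r → SV σ r := Sum.map id Sum.inl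

/-- the polynomial `h(x, u) + ∑ v_j (u_j - g_j(x, u))` -/
noncomputable def tower (h : MvPolynomial (σ ⊕ Fin r) k) (g : Fin r → MvPolynomial (σ ⊕ Fin r) k) :
    MvPolynomial (SV σ r) k :=
  rename (xu σ r) h + ∑ j, X (Sum.inr (Sum.inr j)) *
    (X (Sum.inr (Sum.inl j)) - rename (xu σ r) (g j))

theorem aeval_congr_supp {ι : Type} {A : Type} [CommRing A] [Algebra k A] {s : Set ι}
    {p : MvPolynomial ι k} (hp : p ∈ supported k s) {a b : ι → A} (h : ∀ i ∈ s, a i = b i) :
    aeval a p = aeval b p := by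
  have h1 : (p.vars : Set ι) ⊆ s := mem_supported.1 hp
  exact eval₂Hom_congr' rfl (fun i hi _ => h i (h1 hi)) rfl

theorem hom_aeval {ι A A' : Type} [CommRing A] [Algebra k A] [CommRing A'] [Algebra k A']
    (φ : A →ₐ[k] A') (a : ι → A) (p : MvPolynomial ι k) :
    φ (aeval a p) = aeval (fun i => φ (a i)) p := by
  have : φ.comp (aeval a) = aeval (fun i => φ (a i)) := by
    apply MvPolynomial.algHom_ext
    intro i
    rw [AlgHom.comp_apply, aeval_X, aeval_X]
  rw [← this, AlgHom.comp_apply]

/-- the solution of the triangular system `U_j - g_j(x, U) = u_j` -/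
noncomputable def trU (g : Fin r → MvPolynomial (σ ⊕ Fin r) k) (j : Fin r) :
    MvPolynomial (σ ⊕ Fin r) k :=
  X (Sum.inr j) + aeval (Sum.elim (fun i => X (Sum.inl i))
    (fun i => if h : i < j then trU g i else 0)) (g j)
termination_by j

theorem trU_eq {g : Fin r → MvPolynomial (σ ⊕ Fin r) k}
    (hg : ∀ j, g j ∈ supported k {v | ∀ i, v = Sum.inr i → i < j}) (j : Fin r) :
    trU g j = X (Sum.inr j) + aeval (Sum.elim (fun i => X (Sum.inl i)) (trU g)) (g j) := by
  rw [trU]
  congr 1
  apply aeval_congr_supp (hg j)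
  rintro (i | i) hi
  · rfl
  · show (if h : i < j then trU g i else 0) = trU g i
    rw [dif_pos (hi i rfl)]

theorem tower_iso (h : MvPolynomial (σ ⊕ Fin r) k) (g : Fin r → MvPolynomial (σ ⊕ Fin r) k)
    (hg : ∀ j, g j ∈ supported k {v | ∀ i, v = Sum.inr i → i < j})
    (q : Fin r → MvPolynomial σ k) (hq : ∀ j, q j = aeval (Sum.elim X q) (g j)) :
    ∃ Φ : MvPolynomial (SV σ r) k ≃ₐ[k] MvPolynomial (SV σ r) k,
      Φ (tower h g) = stab (aeval (Sum.elim X q) h) r := by
  -- the solution as polynomials in all variables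
  let U : Fin r → MvPolynomial (SV σ r) k := fun j => rename (xu σ r) (trU g j)
  have hU : ∀ j, U j = X (Sum.inr (Sum.inl j)) +
      aeval (Sum.elim (fun i => X (Sum.inl i)) U) (g j) := by
    intro j
    show rename (xu σ r) (trU g j) = _
    rw [trU_eq hg j, map_add, rename_X]
    congr 1
    rw [hom_aeval]
    congr 2
    funext i
    rcases i with i | i
    · exact rename_X _ _
    · rfl
  let A : MvPolynomial (SV σ r) k →ₐ[k] MvPolynomial (SV σ r) k :=
    aeval (Sum.elim (fun i => X (Sum.inl i)) (Sum.elim U fun j => X (Sum.inr (Sum.inr j))))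
  let B : MvPolynomial (SV σ r) k →ₐ[k] MvPolynomial (SV σ r) k :=
    aeval (Sum.elim (fun i => X (Sum.inl i)) (Sum.elim (fun j => X (Sum.inr (Sum.inl j)) -
      rename (xu σ r) (g j)) fun j => X (Sum.inr (Sum.inr j))))
  have hA1 : ∀ i, A (X (Sum.inl i)) = X (Sum.inl i) := fun i => aeval_X _ _
  have hA2 : ∀ j, A (X (Sum.inr (Sum.inl j))) = U j := fun j => aeval_X _ _
  have hA3 : ∀ j, A (X (Sum.inr (Sum.inr j))) = X (Sum.inr (Sum.inr j)) := fun j => aeval_X _ _
  have hB1 : ∀ i, B (X (Sum.inl i)) = X (Sum.inl i) := fun i => aeval_X _ _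
  have hB2 : ∀ j, B (X (Sum.inr (Sum.inl j))) = X (Sum.inr (Sum.inl j)) -
      rename (xu σ r) (g j) := fun j => aeval_X _ _
  have hB3 : ∀ j, B (X (Sum.inr (Sum.inr j))) = X (Sum.inr (Sum.inr j)) := fun j => aeval_X _ _
  have hAr : ∀ p : MvPolynomial (σ ⊕ Fin r) k, A (rename (xu σ r) p) =
      aeval (Sum.elim (fun i => X (Sum.inl i)) U) p := by
    intro p
    show aeval _ (rename (xu σ r) p) = _
    rw [aeval_rename]
    congr 2
    funext i
    rcases i with i | i <;> rfl
  have hBr : ∀ j, B (U j) = X (Sum.inr (Sum.inl j)) := by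
    intro j
    induction j using WellFoundedLT.induction with
    | ind j ih =>
      rw [hU j, map_add, hB2, hom_aeval]
      have : aeval (fun i => B ((Sum.elim (fun i => X (Sum.inl i)) U : σ ⊕ Fin r → _) i)) (g j)
          = rename (xu σ r) (g j) := by
        rw [rename_eq_aeval]
        apply aeval_congr_supp (hg j)
        rintro (i | i) hi
        · exact hB1 i
        · exact ih i (hi i rfl)
      rw [this]
      ring
  have hAB : A.comp B = AlgHom.id k _ := by
    apply MvPolynomial.algHom_ext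
    rintro (i | j | j)
    · rw [AlgHom.comp_apply, hB1, hA1]; rfl
    · rw [AlgHom.comp_apply, hB2, map_sub, hA2, hAr, hU j]
      simp
    · rw [AlgHom.comp_apply, hB3, hA3]; rfl
  have hBA : B.comp A = AlgHom.id k _ := by
    apply MvPolynomial.algHom_ext
    rintro (i | j | j)
    · rw [AlgHom.comp_apply, hA1, hB1]; rfl
    · rw [AlgHom.comp_apply, hA2, hBr]; rfl
    · rw [AlgHom.comp_apply, hA3, hB3]; rfl
  -- the value of `h` at the solution
  let P : MvPolynomial (σ ⊕ Fin r) k := aeval (Sum.elim (fun i => X (Sum.inl i)) (trU g)) h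
  have hP : A (rename (xu σ r) h) = rename (xu σ r) P := by
    rw [hAr]
    show _ = rename (xu σ r) (aeval _ h)
    rw [hom_aeval]
    congr 2
    funext i
    rcases i with i | i
    · show (X (Sum.inl i) : MvPolynomial (SV σ r) k) = rename (xu σ r) (X (Sum.inl i))
      rw [rename_X]
      rfl
    · rfl
  let e : MvPolynomial (σ ⊕ Fin r) k →ₐ[k] MvPolynomial σ k := aeval (Sum.elim X fun _ => 0)
  have he : ∀ j, e (trU g j) = q j := by
    intro j
    induction j using WellFoundedLT.induction with
    | ind j ih =>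
      rw [trU_eq hg j, map_add, hom_aeval, hq j]
      have h1 : e (X (Sum.inr j)) = 0 := aeval_X _ _
      rw [h1, zero_add]
      apply aeval_congr_supp (hg j)
      rintro (i | i) hi
      · show e (X (Sum.inl i)) = X i
        exact aeval_X _ _
      · exact ih i (hi i rfl)
  have heP : e P = aeval (Sum.elim X q) h := by
    show e (aeval _ h) = _
    rw [hom_aeval]
    congr 2
    funext i
    rcases i with i | i
    · exact aeval_X _ _
    · exact he i
  -- the difference is in the ideal of the `u_j`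
  have hker : ∀ p : MvPolynomial (σ ⊕ Fin r) k, ∃ w : Fin r → MvPolynomial (σ ⊕ Fin r) k,
      p = rename Sum.inl (e p) + ∑ j, X (Sum.inr j) * w j := by
    intro p
    induction p using MvPolynomial.induction_on with
    | C a => exact ⟨fun _ => 0, by simp [e]⟩
    | add p p' hp hp' =>
      obtain ⟨w, hw⟩ := hp
      obtain ⟨w', hw'⟩ := hp'
      refine ⟨fun j => w j + w' j, ?_⟩
      rw [map_add, map_add]
      nth_rewrite 1 [hw, hw']
      simp only [mul_add, Finset.sum_add_distrib]
      ring
    | mul_X p i hp =>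
      obtain ⟨w, hw⟩ := hp
      rcases i with i | i
      · refine ⟨fun j => w j * X (Sum.inl i), ?_⟩
        have h1 : e (X (Sum.inl i)) = X i := aeval_X _ _
        rw [map_mul, map_mul, h1, rename_X]
        nth_rewrite 1 [hw]
        rw [add_mul, Finset.sum_mul]
        congr 1
        exact Finset.sum_congr rfl fun j _ => by ring
      · classical
        refine ⟨fun j => if j = i then p else 0, ?_⟩
        have h1 : e (X (Sum.inr i)) = 0 := aeval_X _ _
        rw [map_mul, h1, mul_zero, map_zero, zero_add]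
        rw [Finset.sum_eq_single i]
        · dsimp only
          rw [if_pos rfl, mul_comm]
        · intro j _ hj
          dsimp only
          rw [if_neg hj, mul_zero]
        · intro hi
          exact absurd (Finset.mem_univ _) hi
  obtain ⟨w, hw⟩ := hker P
  let W : Fin r → MvPolynomial (SV σ r) k := fun j => rename (xu σ r) (w j)
  let A' : MvPolynomial (SV σ r) k →ₐ[k] MvPolynomial (SV σ r) k :=
    aeval (Sum.elim (fun i => X (Sum.inl i)) (Sum.elim (fun j => X (Sum.inr (Sum.inl j)))
      fun j => X (Sum.inr (Sum.inr j)) - W j))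
  let B' : MvPolynomial (SV σ r) k →ₐ[k] MvPolynomial (SV σ r) k :=
    aeval (Sum.elim (fun i => X (Sum.inl i)) (Sum.elim (fun j => X (Sum.inr (Sum.inl j)))
      fun j => X (Sum.inr (Sum.inr j)) + W j))
  have h1 : ∀ p : MvPolynomial (σ ⊕ Fin r) k, A' (rename (xu σ r) p) = rename (xu σ r) p := by
    intro p
    show aeval _ (rename (xu σ r) p) = _
    rw [aeval_rename, rename_eq_aeval]
    congr 2
    funext i
    rcases i with i | i <;> rfl
  have h2 : ∀ p : MvPolynomial (σ ⊕ Fin r) k, B' (rename (xu σ r) p) = rename (xu σ r) p := by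
    intro p
    show aeval _ (rename (xu σ r) p) = _
    rw [aeval_rename, rename_eq_aeval]
    congr 2
    funext i
    rcases i with i | i <;> rfl
  have a1 : ∀ i, A' (X (Sum.inl i)) = X (Sum.inl i) := fun i => aeval_X _ _
  have a2 : ∀ j, A' (X (Sum.inr (Sum.inl j))) = X (Sum.inr (Sum.inl j)) := fun j => aeval_X _ _
  have a3 : ∀ j, A' (X (Sum.inr (Sum.inr j))) = X (Sum.inr (Sum.inr j)) - W j :=
    fun j => aeval_X _ _
  have b1 : ∀ i, B' (X (Sum.inl i)) = X (Sum.inl i) := fun i => aeval_X _ _
  have b2 : ∀ j, B' (X (Sum.inr (Sum.inl j))) = X (Sum.inr (Sum.inl j)) := fun j => aeval_X _ _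
  have b3 : ∀ j, B' (X (Sum.inr (Sum.inr j))) = X (Sum.inr (Sum.inr j)) + W j :=
    fun j => aeval_X _ _
  have hAB' : A'.comp B' = AlgHom.id k _ := by
    apply MvPolynomial.algHom_ext
    rintro (i | j | j)
    · rw [AlgHom.comp_apply, b1, a1]; rfl
    · rw [AlgHom.comp_apply, b2, a2]; rfl
    · rw [AlgHom.comp_apply, b3, map_add, a3, h1]
      simp [W]
  have hBA' : B'.comp A' = AlgHom.id k _ := by
    apply MvPolynomial.algHom_ext
    rintro (i | j | j)
    · rw [AlgHom.comp_apply, a1, b1]; rfl
    · rw [AlgHom.comp_apply, a2, b2]; rfl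
    · rw [AlgHom.comp_apply, a3, map_sub, b3, h2]
      simp [W]
  refine ⟨(AlgEquiv.ofAlgHom A B hAB hBA).trans (AlgEquiv.ofAlgHom A' B' hAB' hBA'), ?_⟩
  show A' (A (tower h g)) = _
  have h3 : A (tower h g) = rename (xu σ r) P + ∑ j, X (Sum.inr (Sum.inr j)) *
      X (Sum.inr (Sum.inl j)) := by
    rw [tower, map_add, hP, map_sum]
    congr 1
    refine Finset.sum_congr rfl fun j _ => ?_
    rw [map_mul, map_sub, hA3, hA2, hAr, hU j]
    ring
  rw [h3, map_add, h1, map_sum]
  have h4 : rename (xu σ r) P = rename Sum.inl (aeval (Sum.elim X q) h) +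
      ∑ j, X (Sum.inr (Sum.inl j)) * W j := by
    conv_lhs => rw [hw]
    rw [map_add, map_sum, rename_rename, heP]
    congr 1
    refine Finset.sum_congr rfl fun j _ => ?_
    rw [map_mul, rename_X]
    rfl
  rw [h4, stab, add_assoc, ← Finset.sum_add_distrib]
  congr 1
  refine Finset.sum_congr rfl fun j _ => ?_
  rw [map_mul, a3, a2]
  ring

end Pool.Agent.Helper8_CR
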